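import Mathlib

/-! Task N of S12181: the numerical estimate. -/

set_option autoImplicit false

namespace Pool.Agent.H380R3.LD

theorem taskN (δ : ℝ) (hδ : 0 < δ) : ∃ k₁ : ℕ, 0 < k₁ ∧ ∀ k ≥ k₁, ∀ h ≤ k,
    (((2 * k : ℕ) : ℝ) ^ ((2 * k) * (2 * k) * h)) *
      (2 * Real.exp (-(δ ^ 2 / (2 * (1 / (k : ℝ) ^ 5))))) < 1 := by
  refine ⟨⌈18 / δ ^ 2⌉₊ + 1, by omega, ?_⟩
  intro k hk h hh
  have hk1 : (18 / δ ^ 2 : ℝ) < k := by
    have h1 := Nat.le_ceil (18 / δ ^ 2 : ℝ)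
    have h2 : ((⌈18 / δ ^ 2⌉₊ + 1 : ℕ) : ℝ) ≤ k := by exact_mod_cast hk
    push_cast at h2
    linarith
  have hd2 : 0 < δ ^ 2 := by positivity
  have hk18 : 18 < δ ^ 2 * k := by
    rw [div_lt_iff₀ hd2] at hk1
    linarith
  have hkpos : (1 : ℝ) ≤ k := by
    have : 1 ≤ k := by omega
    exact_mod_cast this
  have hk0 : (0 : ℝ) < k := by linarith
  have hy : δ ^ 2 / (2 * (1 / (k : ℝ) ^ 5)) = δ ^ 2 * k ^ 5 / 2 := by
    field_simp
  rw [hy]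
  have h2k : (((2 * k : ℕ) : ℝ)) ≤ Real.exp (2 * k) := by
    have := Real.add_one_le_exp (2 * (k : ℝ))
    push_cast
    linarith
  have hpow : (((2 * k : ℕ) : ℝ) ^ ((2 * k) * (2 * k) * h)) ≤
      Real.exp (8 * (k : ℝ) ^ 4) := by
    calc (((2 * k : ℕ) : ℝ) ^ ((2 * k) * (2 * k) * h))
        ≤ (Real.exp (2 * k)) ^ ((2 * k) * (2 * k) * h) :=
          pow_le_pow_left₀ (by positivity) h2k _
      _ = Real.exp ((((2 * k) * (2 * k) * h : ℕ) : ℝ) * (2 * k)) := by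
          rw [← Real.exp_nat_mul]
      _ ≤ Real.exp (8 * (k : ℝ) ^ 4) := by
          apply Real.exp_le_exp.2
          push_cast
          have hh' : (h : ℝ) ≤ k := by exact_mod_cast hh
          have : 2 * (k : ℝ) * (2 * k) * h * (2 * k) = 8 * k ^ 3 * h := by ring
          rw [this]
          have h8 : 8 * (k : ℝ) ^ 3 * (h : ℝ) ≤ 8 * (k : ℝ) ^ 3 * (k : ℝ) := by gcongr
          have h9 : 8 * (k : ℝ) ^ 3 * (k : ℝ) = 8 * (k : ℝ) ^ 4 := by ring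
          linarith
  have h2e : (2 : ℝ) ≤ Real.exp 1 := by
    have := Real.add_one_le_exp (1 : ℝ)
    linarith
  calc (((2 * k : ℕ) : ℝ) ^ ((2 * k) * (2 * k) * h)) * (2 * Real.exp (-(δ ^ 2 * k ^ 5 / 2)))
      ≤ Real.exp (8 * (k : ℝ) ^ 4) * (Real.exp 1 * Real.exp (-(δ ^ 2 * k ^ 5 / 2))) := by
        gcongr
    _ = Real.exp (8 * (k : ℝ) ^ 4 + (1 + -(δ ^ 2 * k ^ 5 / 2))) := by
        rw [← Real.exp_add, ← Real.exp_add]
    _ < 1 := by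
        rw [Real.exp_lt_one_iff]
        have h4 : (1 : ℝ) ≤ (k : ℝ) ^ 4 := one_le_pow₀ hkpos
        have h5 : 18 * (k : ℝ) ^ 4 < δ ^ 2 * k ^ 5 := by
          have : δ ^ 2 * (k : ℝ) ^ 5 = (δ ^ 2 * k) * k ^ 4 := by ring
          rw [this]
          have h4' : (0 : ℝ) < (k : ℝ) ^ 4 := by positivity
          exact mul_lt_mul_of_pos_right hk18 h4'
        linarith

end Pool.Agent.H380R3.LD
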