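import Pool.Agent.H430R3.LD.Stmts
import Pool.Agent.H380R3.LD.TaskN

/-! Final assembly of S12181 from the parts. -/

set_option autoImplicit false

namespace Pool.Agent.H380R3.LD

open Finset Pool.Agent.H430R3.LD

/-- the tower of the statement is below `gg` -/
lemma tower_lt (h : ℕ) : (fun n : ℕ => 2 ^ n)^[h] 1 + 2 ≤ gg h := by
  induction h with
  | zero => simp [gg]
  | succ h ih =>
    rw [Function.iterate_succ_apply']
    have h1 : 2 ^ ((fun n : ℕ => 2 ^ n)^[h] 1 + 1) ≤ 2 ^ (gg h - 1) :=
      Nat.pow_le_pow_right (by norm_num) (by omega)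
    have h2 : 2 ≤ 2 ^ ((fun n : ℕ => 2 ^ n)^[h] 1) := by
      have h3 : 1 ≤ (fun n : ℕ => 2 ^ n)^[h] 1 := by
        cases h with
        | zero => simp
        | succ h =>
          rw [Function.iterate_succ_apply']
          exact Nat.one_le_two_pow
      calc 2 = 2 ^ 1 := rfl
        _ ≤ _ := Nat.pow_le_pow_right (by norm_num) h3
    change 2 ^ ((fun n : ℕ => 2 ^ n)^[h] 1) + 2 ≤ 2 ^ (gg h - 1)
    rw [pow_succ] at h1
    omega

lemma w_congr {u v : ℕ → ℕ} (j : ℕ) : ∀ r, (∀ i ≤ j, u (r + i) = v (r + i)) →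
    w u j r = w v j r := by
  induction j with
  | zero =>
    intro r h
    exact h 0 le_rfl
  | succ j ih =>
    intro r h
    change dl (w u j r) (w u j (r + 1)) = dl (w v j r) (w v j (r + 1))
    have h1 : w u j r = w v j r := ih r (fun i hi => h i (by omega))
    have h2 : w u j (r + 1) = w v j (r + 1) := ih (r + 1) (fun i hi => by
      have := h (i + 1) (by omega)
      rwa [show r + (i + 1) = r + 1 + i by ring] at this)
    rw [h1, h2]

lemma sg_congr {u v : ℕ → ℕ} {j r : ℕ} (h : ∀ i ≤ j + 1, u (r + i) = v (r + i)) :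
    sg u j r = sg v j r := by
  have h1 : w u j r = w v j r := w_congr j r (fun i hi => h i (by omega))
  have h2 : w u j (r + 1) = w v j (r + 1) := w_congr j (r + 1) (fun i hi => by
      have := h (i + 1) (by omega)
      rwa [show r + (i + 1) = r + 1 + i by ring] at this)
  unfold sg
  rw [h1, h2]

lemma nth_mem_finset {P : Finset ℕ} {r : ℕ} (hr : r < P.card) : Nat.nth (· ∈ P) r ∈ P := by
  apply Nat.nth_mem
  intro hf
  have h9 : hf.toFinset = P := by
    ext z
    exact Set.Finite.mem_toFinset hf
  rw [h9]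
  exact hr

/-- enumeration of an image under a strictly increasing map -/
lemma nth_image {x : ℕ → ℕ} (hx : StrictMono x) (P : Finset ℕ) {r : ℕ} (hr : r < P.card) :
    Nat.nth (· ∈ P.image x) r = x (Nat.nth (· ∈ P) r) := by
  have hmem := nth_mem_finset hr
  have hcount : Nat.count (· ∈ P.image x) (x (Nat.nth (· ∈ P) r)) = r := by
    have hf : ∀ hf : {x | x ∈ P}.Finite, r < hf.toFinset.card := by
      intro hf
      have h9 : hf.toFinset = P := by
        ext z
        exact Set.Finite.mem_toFinset hf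
      rw [h9]
      exact hr
    have hc : Nat.count (· ∈ P) (Nat.nth (· ∈ P) r) = r := Nat.count_nth hf
    conv_rhs => rw [← hc]
    rw [Nat.count_eq_card_filter_range, Nat.count_eq_card_filter_range]
    have : (range (x (Nat.nth (· ∈ P) r))).filter (· ∈ P.image x) =
        ((range (Nat.nth (· ∈ P) r)).filter (· ∈ P)).image x := by
      ext z
      simp only [mem_filter, mem_range, mem_image]
      constructor
      · rintro ⟨hz, a, ha, rfl⟩
        exact ⟨a, ⟨hx.lt_iff_lt.1 hz, ha⟩, rfl⟩
      · rintro ⟨a, ⟨ha, haP⟩, rfl⟩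
        exact ⟨hx.lt_iff_lt.2 ha, a, haP, rfl⟩
    rw [this, card_image_of_injective _ hx.injective]
  have := Nat.nth_count (p := (· ∈ P.image x)) (n := x (Nat.nth (· ∈ P) r))
    (mem_image_of_mem x hmem)
  rwa [hcount] at this

/-- a finite set of size `n` below `B` is the image of `range n` under a strictly increasing
function on all naturals -/
lemma exists_enum (S : Finset ℕ) (B : ℕ) (hB : ∀ y ∈ S, y < B) :
    ∃ x : ℕ → ℕ, StrictMono x ∧ (range S.card).image x = S := by
  classical
  set p : ℕ → Prop := fun y => y ∈ S ∨ B ≤ y with hp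
  have hinf : {y | p y}.Infinite := by
    apply Set.infinite_of_not_bddAbove
    rintro ⟨b, hb⟩
    have h1 : B + b + 1 ∈ {y | p y} := Or.inr (by omega)
    have := hb h1
    omega
  refine ⟨Nat.nth p, Nat.nth_strictMono hinf, ?_⟩
  have hsub : S ⊆ (range S.card).image (Nat.nth p) := by
    intro y hy
    refine mem_image.2 ⟨Nat.count p y, mem_range.2 ?_, Nat.nth_count (Or.inl hy)⟩
    rw [Nat.count_eq_card_filter_range]
    apply card_lt_card
    rw [ssubset_iff_of_subset]
    · exact ⟨y, hy, by simp⟩
    · intro z hz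
      obtain ⟨h1, h2⟩ := mem_filter.1 hz
      rcases h2 with h2 | h2
      · exact h2
      · have := hB y hy
        have := mem_range.1 h1
        omega
  symm
  apply eq_of_subset_of_card_le hsub
  calc ((range S.card).image (Nat.nth p)).card ≤ (range S.card).card := card_image_le
    _ = S.card := card_range _

theorem assemble (hH : TaskH) (hC : TaskC) (hB : TaskB) :
    ∃ ε : ℝ, 0 < ε ∧ ∀ δ : ℝ, 0 < δ → ∃ k₀ : ℕ, ∀ k : ℕ, k₀ ≤ k →
      ∀ N : ℕ, N ≤ (fun n : ℕ => 2 ^ n)^[⌊ε * (k : ℝ)⌋₊] 1 →
        ∃ γ : Finset (Fin N) → Bool, ∀ S : Finset (Fin N), S.card = 2 * k →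
          |∑ T ∈ S.powersetCard k, (if γ T then (1 : ℝ) else -1)|
            ≤ δ * ((Nat.choose (2 * k) k : ℕ) : ℝ) := by
  classical
  obtain ⟨m, hm, k₂, hB⟩ := hB
  have hmR : (0 : ℝ) < m := by exact_mod_cast hm
  refine ⟨1 / m, by positivity, ?_⟩
  intro δ hδ
  obtain ⟨k₁, hk₁, hN⟩ := taskN δ hδ
  refine ⟨max k₁ k₂, ?_⟩
  intro k hk N hNk
  have hk1 : k₁ ≤ k := (le_max_left _ _).trans hk
  have hk2 : k₂ ≤ k := (le_max_right _ _).trans hk
  have hkpos : 0 < k := by omega
  set h : ℕ := ⌊1 / (m : ℝ) * (k : ℝ)⌋₊ with hh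
  have hmh : m * h ≤ k := by
    have h1 : (h : ℝ) ≤ 1 / (m : ℝ) * (k : ℝ) := Nat.floor_le (by positivity)
    have h2 : (m : ℝ) * h ≤ k := by
      calc (m : ℝ) * h ≤ m * (1 / (m : ℝ) * (k : ℝ)) := by gcongr
        _ = k := by field_simp
    exact_mod_cast h2
  have hhk : h ≤ k := le_trans (Nat.le_mul_of_pos_left h hm) hmh
  -- the index types
  obtain ⟨code, hcode⟩ := hC (2 * k) h k
  set J : Type := {P : Finset ℕ // P ∈ (range (2 * k)).powersetCard k} with hJ
  have hJc : Fintype.card J = (2 * k).choose k :=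
    (Fintype.card_coe _).trans (by rw [card_powersetCard, card_range])
  set Good : (Fin h → Fin (2 * k) → Fin (2 * k) → Fin (2 * k)) → Prop := fun M =>
    ∃ x : ℕ → ℕ, Seq x (2 * k) h ∧ ∀ P : Finset ℕ, P ⊆ range (2 * k) → P.card = k →
      ∀ (j : Fin (h + 1)) (r : Fin k),
        code M P j r = (if (r : ℕ) + j + 1 < k then sg (en x P) j r else false) with hGood
  have hH' := hH (Fin (h + 1) → Fin k → Bool) {M // Good M} J
    (fun M P => code M.1 P.1) (1 / (k : ℝ) ^ 5) δ (by positivity) hδ ?_ ?_
  · obtain ⟨g, hg⟩ := hH'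
    -- the colouring
    refine ⟨fun T => g (fun j r => if (r : ℕ) + j + 1 < k then
      sg (Nat.nth (· ∈ T.map Fin.valEmbedding)) j r else false), ?_⟩
    intro S hS
    set S' : Finset ℕ := S.map Fin.valEmbedding with hS'
    have hS'c : S'.card = 2 * k := by rw [hS', card_map, hS]
    have hS'B : ∀ y ∈ S', y < N := by
      intro y hy
      obtain ⟨a, _, rfl⟩ := mem_map.1 hy
      exact a.2
    obtain ⟨x, hxm, hxS⟩ := exists_enum S' N hS'B
    rw [hS'c] at hxS
    have hseq : Seq x (2 * k) h := by
      refine ⟨fun i j hij _ => hxm hij, fun i hi => ?_⟩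
      have h1 : x i ∈ S' := by
        rw [← hxS]
        exact mem_image_of_mem x (mem_range.2 hi)
      have h2 := hS'B _ h1
      have h3 := tower_lt h
      omega
    obtain ⟨M, hM⟩ := hcode x hseq.1
    have hgM := hg ⟨M, x, hseq, hM⟩
    rw [hJc] at hgM
    refine le_trans (le_of_eq ?_) hgM
    congr 1
    -- reindex the sum
    have step1 : ∑ T ∈ S.powersetCard k, (if g (fun j r => if (r : ℕ) + j + 1 < k then
        sg (Nat.nth (· ∈ T.map Fin.valEmbedding)) j r else false) then (1 : ℝ) else -1) =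
        ∑ T ∈ S'.powersetCard k, (if g (fun j r => if (r : ℕ) + j + 1 < k then
        sg (Nat.nth (· ∈ T)) j r else false) then (1 : ℝ) else -1) := by
      rw [hS', powersetCard_map, sum_map]
      rfl
    have step2 : ∑ T ∈ S'.powersetCard k, (if g (fun j r => if (r : ℕ) + j + 1 < k then
        sg (Nat.nth (· ∈ T)) j r else false) then (1 : ℝ) else -1) =
        ∑ P ∈ (range (2 * k)).powersetCard k, (if g (fun j r => if (r : ℕ) + j + 1 < k then
        sg (Nat.nth (· ∈ P.image x)) j r else false) then (1 : ℝ) else -1) := by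
      have hmap : S' = (range (2 * k)).map ⟨x, hxm.injective⟩ := by
        rw [map_eq_image]
        exact hxS.symm
      rw [hmap, powersetCard_map, sum_map]
      apply sum_congr rfl
      intro P _
      have : (Finset.mapEmbedding ⟨x, hxm.injective⟩).toEmbedding P = P.image x := by
        change P.map ⟨x, hxm.injective⟩ = _
        rw [map_eq_image]
        rfl
      rw [this]
    have step3 : ∑ P ∈ (range (2 * k)).powersetCard k,
        (if g (fun j r => if (r : ℕ) + j + 1 < k then
        sg (Nat.nth (· ∈ P.image x)) j r else false) then (1 : ℝ) else -1) =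
        ∑ P : J, (if g (code M P.1) then (1 : ℝ) else -1) := by
      rw [← sum_coe_sort]
      apply sum_congr rfl
      intro P _
      obtain ⟨hP1, hP2⟩ := mem_powersetCard.1 P.2
      have : (fun (j : Fin (h + 1)) (r : Fin k) => if (r : ℕ) + j + 1 < k then
          sg (Nat.nth (· ∈ P.1.image x)) j r else false) = code M P.1 := by
        funext j r
        rw [hM P.1 hP1 hP2 j r]
        split_ifs with hr
        · apply sg_congr
          intro i hi
          exact nth_image hxm P.1 (by omega)
        · rfl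
      rw [this]
    rw [step1, step2, step3]
  · -- fibres
    rintro ⟨M, x, hseq, hM⟩ u
    rw [hJc]
    set c : ℕ → ℕ → Bool := fun j r =>
      if H : j < h + 1 ∧ r < k then u ⟨j, H.1⟩ ⟨r, H.2⟩ else false with hc
    set F : Finset (Finset ℕ) :=
      ((univ : Finset J).filter fun P => code M P.1 = u).image (fun P => P.1) with hF
    have hFc : F.card = ((univ : Finset J).filter fun P => code M P.1 = u).card :=
      card_image_of_injective _ Subtype.val_injective
    have hFB := hB k hk2 h hmh x hseq c F ?_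
    · change (((univ : Finset J).filter fun P => code M P.1 = u).card : ℝ) ≤ _
      rw [← hFc]
      have hk5 : (0 : ℝ) < (k : ℝ) ^ 5 := by
        have : (0 : ℝ) < k := by exact_mod_cast hkpos
        positivity
      rw [one_div, inv_mul_eq_div, le_div_iff₀ hk5]
      exact hFB
    · intro P hP
      obtain ⟨P', hP', rfl⟩ := mem_image.1 hP
      obtain ⟨hP1, hP2⟩ := mem_powersetCard.1 P'.2
      have hu : code M P'.1 = u := (mem_filter.1 hP').2
      refine ⟨hP1, hP2, ?_⟩
      intro j hj r hr
      rw [hP2] at hr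
      have h1 := hM P'.1 hP1 hP2 ⟨j, by omega⟩ ⟨r, by omega⟩
      rw [hu] at h1
      simp only at h1
      rw [if_pos hr] at h1
      rw [← h1, hc]
      simp only
      rw [dif_pos ⟨by omega, by omega⟩]
  · -- numbers
    have hcard : (Fintype.card {M // Good M} : ℝ) ≤ ((2 * k : ℕ) : ℝ) ^ ((2 * k) * (2 * k) * h) := by
      have h1 : Fintype.card {M // Good M} ≤
          Fintype.card (Fin h → Fin (2 * k) → Fin (2 * k) → Fin (2 * k)) :=
        Fintype.card_subtype_le _
      have h2 : Fintype.card (Fin h → Fin (2 * k) → Fin (2 * k) → Fin (2 * k)) =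
          (2 * k) ^ ((2 * k) * (2 * k) * h) := by
        simp only [Fintype.card_fun, Fintype.card_fin]
        rw [← pow_mul, ← pow_mul]
        congr 1
        ring
      rw [h2] at h1
      exact_mod_cast h1
    refine lt_of_le_of_lt ?_ (hN k hk1 h hhk)
    gcongr

end Pool.Agent.H380R3.LD
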