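import Pool.Agent.H430R3.LD.Stmts

/-! Task C of S12181: few patterns. -/

set_option autoImplicit false

namespace Pool.Agent.H380R3.LD

open Finset Pool.Agent.H430R3.LD

/-- all labels of pairs of elements of `V` -/
def lab (V : Finset ℕ) : Finset ℕ := (V ×ˢ V).image fun p => dl p.1 p.2

lemma mem_lab {V : Finset ℕ} {a b : ℕ} (ha : a ∈ V) (hb : b ∈ V) : dl a b ∈ lab V :=
  mem_image.2 ⟨(a, b), mem_product.2 ⟨ha, hb⟩, rfl⟩

lemma card_lab (V : Finset ℕ) : (lab V).card ≤ V.card := by
  induction V using Finset.induction_on_max with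
  | empty => simp [lab]
  | insert c V hc ih =>
    have hcV : c ∉ V := fun h => lt_irrefl _ (hc c h)
    rw [card_insert_of_notMem hcV]
    rcases V.eq_empty_or_nonempty with rfl | hne
    · calc (lab (insert c ∅)).card ≤ ((insert c ∅ : Finset ℕ) ×ˢ (insert c ∅ : Finset ℕ)).card :=
            card_image_le
        _ = 1 := by simp
        _ ≤ _ := by simp
    · set m := V.max' hne with hm
      have hmV : m ∈ V := V.max'_mem hne
      have hsub : lab (insert c V) ⊆ insert (dl m c) (lab V) := by
        have key : ∀ a ∈ V, dl a c ∈ insert (dl m c) (lab V) := by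
          intro a ha
          have h1 : dl a c = max (dl a m) (dl m c) := dl_max (V.le_max' a ha) (hc m hmV).le
          rcases max_choice (dl a m) (dl m c) with h | h
          · rw [h1, h]
            exact mem_insert_of_mem (mem_lab ha hmV)
          · rw [h1, h]
            exact mem_insert_self _ _
        intro y hy
        obtain ⟨⟨a, b⟩, hab, rfl⟩ := mem_image.1 hy
        obtain ⟨ha, hb⟩ := mem_product.1 hab
        simp only at ha hb ⊢
        rcases mem_insert.1 ha with ha1 | ha1
        · rcases mem_insert.1 hb with hb1 | hb1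
          · rw [ha1, hb1, dl_self, ← dl_self m]
            exact mem_insert_of_mem (mem_lab hmV hmV)
          · rw [ha1, dl_comm c b]
            exact key b hb1
        · rcases mem_insert.1 hb with hb1 | hb1
          · rw [hb1]
            exact key a ha1
          · exact mem_insert_of_mem (mem_lab ha1 hb1)
      calc (lab (insert c V)).card ≤ (insert (dl m c) (lab V)).card := card_le_card hsub
        _ ≤ (lab V).card + 1 := card_insert_le _ _
        _ ≤ V.card + 1 := by omega

/-- the iterated label sets -/
def VV (V : Finset ℕ) : ℕ → Finset ℕ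
  | 0 => V
  | j + 1 => lab (VV V j)

lemma card_VV (V : Finset ℕ) (j : ℕ) : (VV V j).card ≤ V.card := by
  induction j with
  | zero => exact le_rfl
  | succ j ih => exact (card_lab _).trans ih

/-- the rank recursion -/
noncomputable def rho {n h : ℕ} (M : Fin h → Fin n → Fin n → Fin n) (P : Finset ℕ) : ℕ → ℕ → ℕ
  | 0 => fun r => Nat.nth (· ∈ P) r
  | j + 1 => fun r =>
    if H : j < h ∧ rho M P j r < n ∧ rho M P j (r + 1) < n then
      (M ⟨j, H.1⟩ ⟨rho M P j r, H.2.1⟩ ⟨rho M P j (r + 1), H.2.2⟩ : ℕ)
    else 0

lemma count_lt {V : Finset ℕ} {y : ℕ} (hy : y ∈ V) : Nat.count (· ∈ V) y < V.card := by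
  rw [Nat.count_eq_card_filter_range]
  apply card_lt_card
  rw [ssubset_iff_of_subset (fun z hz => (mem_filter.1 hz).2)]
  exact ⟨y, hy, by simp⟩

theorem taskC : TaskC := by
  intro n h k
  refine ⟨fun M P j r => if (r : ℕ) + j + 1 < k then
    decide (rho M P j r < rho M P j (r + 1)) else false, ?_⟩
  intro x hx
  rcases Nat.eq_zero_or_pos n with rfl | hn
  · refine ⟨fun _ a _ => a, ?_⟩
    intro P hP hk j r
    have : P = ∅ := by simpa using hP
    rw [this, card_empty] at hk
    subst hk
    exact r.elim0
  set V : Finset ℕ := (range n).image x with hV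
  have hVc : V.card ≤ n := by
    calc V.card ≤ (range n).card := card_image_le
      _ = n := card_range n
  have hlev : ∀ j y, y ∈ VV V j → Nat.count (· ∈ VV V j) y < n := fun j y hy =>
    lt_of_lt_of_le (count_lt hy) ((card_VV V j).trans hVc)
  refine ⟨fun j a b => ⟨Nat.count (· ∈ VV V (j + 1))
    (dl (Nat.nth (· ∈ VV V j) a) (Nat.nth (· ∈ VV V j) b)) % n, Nat.mod_lt _ hn⟩, ?_⟩
  intro P hP hk
  set M : Fin h → Fin n → Fin n → Fin n := fun j a b => ⟨Nat.count (· ∈ VV V (j + 1))
    (dl (Nat.nth (· ∈ VV V j) a) (Nat.nth (· ∈ VV V j) b)) % n, Nat.mod_lt _ hn⟩ with hM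
  have key : ∀ j ≤ h, ∀ r, r + j < k →
      w (en x P) j r ∈ VV V j ∧ rho M P j r = Nat.count (· ∈ VV V j) (w (en x P) j r) := by
    intro j
    induction j with
    | zero =>
      intro _ r hr
      have hmem : Nat.nth (· ∈ P) r ∈ P := by
        apply Nat.nth_mem
        intro hf
        have h9 : hf.toFinset = P := by
          ext z
          exact Set.Finite.mem_toFinset hf
        rw [h9]
        omega
      have hlt : Nat.nth (· ∈ P) r < n := mem_range.1 (hP hmem)
      refine ⟨?_, ?_⟩
      · exact mem_image_of_mem x (mem_range.2 hlt)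
      · change Nat.nth (· ∈ P) r = Nat.count (· ∈ V) (x (Nat.nth (· ∈ P) r))
        generalize Nat.nth (· ∈ P) r = i at hlt
        rw [Nat.count_eq_card_filter_range]
        have : (range (x i)).filter (· ∈ V) = (range i).image x := by
          ext z
          rw [mem_filter, mem_range, hV, mem_image, mem_image]
          constructor
          · rintro ⟨hz, a, ha, rfl⟩
            refine ⟨a, mem_range.2 ?_, rfl⟩
            by_contra hai
            push Not at hai
            rcases eq_or_lt_of_le hai with h1 | h1
            · subst h1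
              exact lt_irrefl _ hz
            · exact absurd (hx i a h1 (mem_range.1 ha)) (by omega)
          · rintro ⟨a, ha, rfl⟩
            have ha := mem_range.1 ha
            exact ⟨hx a i ha hlt, a, mem_range.2 (by omega), rfl⟩
        rw [this, card_image_of_injOn, card_range]
        intro a ha b hb hab
        have ha : a < i := by simpa using ha
        have hb : b < i := by simpa using hb
        by_contra hne
        rcases lt_or_gt_of_ne hne with h1 | h1
        · have := hx a b h1 (by omega)
          have hab' : x a = x b := hab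
          omega
        · have := hx b a h1 (by omega)
          have hab' : x a = x b := hab
          omega
    | succ j ih =>
      intro hj r hr
      obtain ⟨h1, h2⟩ := ih (by omega) r (by omega)
      obtain ⟨h3, h4⟩ := ih (by omega) (r + 1) (by omega)
      have hmem : w (en x P) (j + 1) r ∈ VV V (j + 1) := mem_lab h1 h3
      refine ⟨hmem, ?_⟩
      have c1 : rho M P j r < n := h2 ▸ hlev j _ h1
      have c2 : rho M P j (r + 1) < n := h4 ▸ hlev j _ h3
      have hstep : rho M P (j + 1) r = (M ⟨j, by omega⟩ ⟨rho M P j r, c1⟩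
          ⟨rho M P j (r + 1), c2⟩ : ℕ) := by
        change (if H : j < h ∧ rho M P j r < n ∧ rho M P j (r + 1) < n then
          (M ⟨j, H.1⟩ ⟨rho M P j r, H.2.1⟩ ⟨rho M P j (r + 1), H.2.2⟩ : ℕ) else 0) = _
        rw [dif_pos ⟨by omega, c1, c2⟩]
      rw [hstep]
      change Nat.count (· ∈ VV V (j + 1)) (dl (Nat.nth (· ∈ VV V j) (rho M P j r))
        (Nat.nth (· ∈ VV V j) (rho M P j (r + 1)))) % n = _
      rw [h2, h4, Nat.nth_count h1, Nat.nth_count h3]
      exact Nat.mod_eq_of_lt (hlev (j + 1) _ hmem)
  intro j r
  simp only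
  split_ifs with hr
  · have hj : (j : ℕ) ≤ h := by omega
    obtain ⟨h1, h2⟩ := key j hj r (by omega)
    obtain ⟨h3, h4⟩ := key j hj (r + 1) (by omega)
    unfold sg
    rw [h2, h4, decide_eq_decide]
    constructor
    · intro hlt
      by_contra hge
      push Not at hge
      exact absurd (Nat.count_monotone (· ∈ VV V j) hge) (by omega)
    · intro hlt
      exact Nat.count_strict_mono h1 hlt
  · rfl

end Pool.Agent.H380R3.LD
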