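import Pool.Agent.H380R3.LD.Asm
import Pool.Agent.H380R3.LD.TaskC
import Pool.Agent.H529R3.LD.TaskH

/-! S12181 from `TaskB` alone. -/

set_option autoImplicit false

namespace Pool.Agent.H380R3.LD

open Pool.Agent.H430R3.LD

theorem final (hB : TaskB) :
    ∃ ε : ℝ, 0 < ε ∧ ∀ δ : ℝ, 0 < δ → ∃ k₀ : ℕ, ∀ k : ℕ, k₀ ≤ k →
      ∀ N : ℕ, N ≤ (fun n : ℕ => 2 ^ n)^[⌊ε * (k : ℝ)⌋₊] 1 →
        ∃ γ : Finset (Fin N) → Bool, ∀ S : Finset (Fin N), S.card = 2 * k →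
          |∑ T ∈ S.powersetCard k, (if γ T then (1 : ℝ) else -1)|
            ≤ δ * ((Nat.choose (2 * k) k : ℕ) : ℝ) :=
  assemble H529R3.LD.taskH taskC hB

end Pool.Agent.H380R3.LD
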